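import Mathlib

namespace Pool.Agent.Results.MP_6d4084_an.Sharp

open Polynomial Real MeasureTheory Filter Topology

/-- the maximum modulus on the closed unit disc -/
noncomputable def supN (q : ℂ[X]) : ℝ := sSup ((fun z => ‖q.eval z‖) '' Metric.closedBall 0 1)

/-- the Bombieri supremum norm -/
noncomputable def bomb (p : ℂ[X]) : ℝ :=
  ⨆ j : Fin (p.natDegree + 1), ‖p.coeff j‖ / (p.natDegree.choose j : ℝ)

/-- the extremal quantity `S_n` -/
noncomputable def S (n : ℕ) : ℝ := sSup {r | ∃ p q : ℂ[X],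
  p.Monic ∧ p.natDegree = n ∧ q.Monic ∧ q ∣ p ∧ r = supN q / bomb p}

/-- the constant `K` -/
noncomputable def K : ℝ :=
  exp ((2 * π)⁻¹ * ∫ t in (0 : ℝ)..2 * π, log (1 + ‖1 + Complex.exp (t * Complex.I)‖))

theorem avg_ex (f : ℂ → ℂ → ℝ) (L : ℂ → ℝ)
    (hf : Integrable (fun p : ℝ × ℝ => f (circleMap 0 1 p.1) (circleMap 0 1 p.2))
      ((volume.restrict (Set.Ioc 0 (2 * π))).prod (volume.restrict (Set.Ioc 0 (2 * π)))))
    (hL : Continuous L) (h : ∀ z, L z ≤ circleAverage (f z) 0 1) :
    ∃ w : ℂ, ‖w‖ = 1 ∧ circleAverage L 0 1 ≤ circleAverage (f · w) 0 1 := by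
  have p : 0 < 2 * π := two_pi_pos
  obtain ⟨θ, hθ⟩ := exists_average_le (μ := volume.restrict (Set.Ioc 0 (2 * π))) (by simp [pi_pos])
    hf.integral_prod_right
  refine ⟨circleMap 0 1 θ, by simp, ?_⟩
  simp only [circleAverage_def, intervalIntegral.integral_of_le p.le, smul_eq_mul] at h ⊢
  refine mul_le_mul_of_nonneg_left (le_trans ?_ hθ) (by positivity)
  rw [average_eq, ← integral_integral_swap hf, ← integral_smul]
  refine integral_mono ((hL.comp (continuous_circleMap 0 1)).integrableOn_Ioc)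
    (hf.integral_prod_left.const_mul _) fun t => ?_
  simpa [pi_pos.le] using h (circleMap 0 1 t)

theorem cint {f : ℂ → ℝ} (hf : Continuous f) : CircleIntegrable f 0 1 :=
  hf.continuousOn.circleIntegrable zero_le_one

theorem pint (p : ℂ[X]) : CircleIntegrable (fun z => log ‖p.eval z‖) 0 1 :=
  (circleIntegrable_def _ _ _).2 p.intervalIntegrable_mahlerMeasure

theorem inner (a b : ℂ) {h : ℝ} (h1 : 1 ≤ h) :
    log (max ‖a‖ (max ‖b‖ h)) ≤ circleAverage (fun w => log (max ‖a + w * b‖ h)) 0 1 := by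
  have c : Continuous fun w : ℂ => log (max ‖a + w * b‖ h) :=
    Continuous.log (by fun_prop) fun w => by positivity
  rw [← max_assoc]
  rcases le_total (max ‖a‖ ‖b‖) h with e | e
  · rw [max_eq_right e, ← circleAverage_const (log h) 0 1]
    exact circleAverage_mono (cint continuous_const) (cint c) fun w _ =>
      log_le_log (by positivity) (le_max_right _ _)
  · have : (C b * X + C a).mahlerMeasure = max ‖a‖ ‖b‖ := by
      by_cases hb : b = 0
      · simp [hb]
      · rw [mahlerMeasure_C_mul_X_add_C hb, max_comm]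
    rw [max_eq_left e, ← this, ← logMahlerMeasure_eq_log_MahlerMeasure, logMahlerMeasure_def]
    refine circleAverage_mono (pint _) (cint c) fun w _ => ?_
    rw [show eval w (C b * X + C a) = a + w * b by simp; ring]
    rcases (norm_nonneg (a + w * b)).eq_or_lt with e2 | e2
    · rw [← e2, log_zero]; exact log_nonneg (le_max_of_le_right h1)
    · exact log_le_log e2 (le_max_left _ _)

theorem phases (g : ℕ → ℂ → ℂ) (hg : ∀ j, Continuous (g j)) (L : ℂ → ℝ) (hL : Continuous L)
    (L0 : ∀ z, 0 < L z) (k : ℕ) : ∀ h : ℂ → ℝ, Continuous h → (∀ z, 1 ≤ h z) →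
      (∀ z, L z ≤ h z ∨ ∃ j < k, L z ≤ ‖g j z‖) → ∃ ξ : ℕ → ℂ, (∀ j, ‖ξ j‖ = 1) ∧
        circleAverage (fun z => log (L z)) 0 1 ≤
          circleAverage (fun z => log (max ‖∑ j ∈ Finset.range k, ξ j * g j z‖ (h z))) 0 1 := by
  induction k with
  | zero =>
    intro h hh h1 h2
    refine ⟨fun _ => 1, by simp, circleAverage_mono (cint (hL.log fun z => (L0 z).ne'))
      (cint (Continuous.log (by fun_prop) fun z => by have := h1 z; positivity)) fun z _ =>
        log_le_log (L0 z) (le_max_of_le_right (by simpa using h2 z))⟩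
  | succ k ih =>
    intro h hh h1 h2
    obtain ⟨ξ, x1, x2⟩ := ih (fun z => max ‖g k z‖ (h z)) (by fun_prop)
      (fun z => le_max_of_le_right (h1 z)) fun z => by
        rcases h2 z with e | ⟨j, e1, e2⟩
        · exact .inl (le_max_of_le_right e)
        · rcases (Nat.le_of_lt_succ e1).lt_or_eq with e | rfl
          · exact .inr ⟨j, e, e2⟩
          · exact .inl (le_max_of_le_left e2)
    have c : Continuous fun p : ℝ × ℝ => log (max ‖(∑ j ∈ Finset.range k, ξ j * g j (circleMap 0 1 p.1))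
        + circleMap 0 1 p.2 * g k (circleMap 0 1 p.1)‖ (h (circleMap 0 1 p.1))) :=
      Continuous.log (by fun_prop) fun p => by have := h1 (circleMap 0 1 p.1); positivity
    obtain ⟨w, w1, w2⟩ := avg_ex
      (fun z w => log (max ‖(∑ j ∈ Finset.range k, ξ j * g j z) + w * g k z‖ (h z))) _
      (by
        rw [Measure.prod_restrict]
        exact (c.continuousOn.integrableOn_compact (isCompact_Icc.prod isCompact_Icc)).mono_set
          (Set.prod_mono Set.Ioc_subset_Icc_self Set.Ioc_subset_Icc_self))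
      (Continuous.log (by fun_prop) fun z => by have := h1 z; positivity) fun z => inner _ _ (h1 z)
    refine ⟨Function.update ξ k w, fun j => ?_, (x2.trans w2).trans_eq ?_⟩
    · by_cases e : j = k <;> simp [e, w1, x1]
    · congr 1
      ext z
      rw [Finset.sum_range_succ, Function.update_self, Finset.sum_congr
        (f := fun j => Function.update ξ k w j * g j z) rfl fun j hj => by
          rw [Function.update_of_ne (Finset.mem_range.1 hj).ne]]

theorem last (F : ℂ → ℂ) (hF : Continuous F) : ∃ w : ℂ, ‖w‖ = 1 ∧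
    circleAverage (fun z => log (max ‖F z‖ 1)) 0 1 ≤ circleAverage (fun z => log ‖w + F z‖) 0 1 := by
  have ci : ∀ a : ℂ, CircleIntegrable (fun w => log ‖w + a‖) 0 1 := fun a => by
    simpa using circleIntegrable_log_norm_sub_const (a := -a) (c := 0) 1
  refine avg_ex (fun z w => log ‖w + F z‖) _ ?_
    (Continuous.log (by fun_prop) fun z => by positivity) fun z => ?_
  · have m : AEStronglyMeasurable (fun p : ℝ × ℝ => log ‖circleMap 0 1 p.2 + F (circleMap 0 1 p.1)‖)
        ((volume.restrict (Set.Ioc 0 (2 * π))).prod (volume.restrict (Set.Ioc 0 (2 * π)))) :=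
      (measurable_log.comp (Continuous.measurable (by fun_prop))).aestronglyMeasurable
    refine (integrable_prod_iff m).2 ⟨.of_forall fun t => (ci (F (circleMap 0 1 t))).1, ?_⟩
    have c : Continuous fun t : ℝ => 2 * π * (2 * (1 + ‖F (circleMap 0 1 t)‖)) := by fun_prop
    refine c.integrableOn_Ioc.mono' m.norm.integral_prod_right' (.of_forall fun t => ?_)
    rw [Real.norm_of_nonneg (integral_nonneg fun _ => norm_nonneg _)]
    dsimp only
    generalize F (circleMap 0 1 t) = a
    have h1 : circleAverage (fun w => |log ‖w + a‖|) 0 1 ≤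
        circleAverage (fun w => 2 * (1 + ‖a‖) - log ‖w + a‖) 0 1 := by
      refine circleAverage_mono (ci a).abs ((cint continuous_const).sub (ci a)) fun w hw => ?_
      have := log_le_self (norm_nonneg (w + a))
      have := norm_add_le w a
      have : ‖w‖ = 1 := by simpa using hw
      exact abs_le.2 ⟨by linarith [norm_nonneg a], by linarith⟩
    rw [circleAverage_fun_sub (cint continuous_const) (ci a), circleAverage_const,
      circleAverage_log_norm_add_const_eq_posLog, circleAverage_def,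
      intervalIntegral.integral_of_le two_pi_pos.le, smul_eq_mul, inv_mul_le_iff₀ two_pi_pos] at h1
    exact h1.trans (mul_le_mul_of_nonneg_left (sub_le_self _ posLog_nonneg) two_pi_pos.le)
  · rw [circleAverage_log_norm_add_const_eq_posLog, posLog_eq_log_max_one (norm_nonneg _), max_comm]

theorem avgK {w : ℂ} (hw : ‖w‖ = 1) (B : ℝ) (hB : 0 < B) (n : ℕ) :
    exp (circleAverage (fun z => log (B * (1 + ‖z + w‖) ^ n)) 0 1) = B * K ^ n := by
  have c : Continuous fun z : ℂ => log (1 + ‖z + w‖) :=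
    Continuous.log (by fun_prop) fun z => by positivity
  have e : circleAverage (fun z => log (1 + ‖z + w‖)) 0 1 = log K := by
    rw [K, log_exp, circleAverage_eq_integral_add w.arg, smul_eq_mul]
    congr 2
    ext t
    have : circleMap 0 1 (t + w.arg) + w = (1 + Complex.exp (t * Complex.I)) * w := by
      have := Complex.norm_mul_exp_arg_mul_I w
      rw [hw] at this
      simp only [circleMap, Complex.ofReal_add, add_mul, Complex.exp_add] at this ⊢
      simp only [Complex.ofReal_one, one_mul] at this ⊢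
      rw [this]; ring
    rw [this, norm_mul, hw, mul_one]
  have : (fun z : ℂ => log (B * (1 + ‖z + w‖) ^ n)) =
      fun z => log B + (n : ℝ) • log (1 + ‖z + w‖) := by
    ext z; rw [log_mul hB.ne' (by positivity), log_pow, smul_eq_mul]
  rw [this, circleAverage_fun_add (cint continuous_const) (cint (by fun_prop)), circleAverage_const,
    circleAverage_fun_smul, e, exp_add, exp_log hB, smul_eq_mul, ← log_pow,
    exp_log (pow_pos (show 0 < K from exp_pos _) _)]

theorem le_bomb (p : ℂ[X]) {j : ℕ} (hj : j < p.natDegree + 1) :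
    ‖p.coeff j‖ ≤ bomb p * p.natDegree.choose j :=
  (div_le_iff₀ (by exact_mod_cast Nat.choose_pos (by omega))).1
    (le_ciSup (f := fun j : Fin (p.natDegree + 1) => ‖p.coeff j‖ / (p.natDegree.choose j : ℝ))
      (Set.finite_range _).bddAbove ⟨j, hj⟩)

theorem upper {p q : ℂ[X]} (hp : p.Monic) (hq : q.Monic) (h : q ∣ p) :
    1 ≤ bomb p ∧ ∀ z ∈ Metric.closedBall (0 : ℂ) 1, ‖q.eval z‖ ≤ bomb p * K ^ p.natDegree := by
  have b1 : 1 ≤ bomb p := by simpa [hp.coeff_natDegree] using le_bomb p p.natDegree.lt_succ_self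
  refine ⟨b1, fun z hz => Complex.norm_le_of_forall_mem_frontier_norm_le
    (U := Metric.ball 0 1) Metric.isBounded_ball q.differentiable.diffContOnCl (fun w hw => ?_)
    (by rwa [closure_ball _ one_ne_zero])⟩
  rw [frontier_ball _ one_ne_zero, mem_sphere_zero_iff_norm] at hw
  obtain ⟨s, rfl⟩ := h
  have hs := hq.of_mul_monic_left hp
  have a1 := norm_coeff_le_choose_mul_mahlerMeasure 0 (q.comp (X + C w))
  have a2 := one_le_mahlerMeasure_of_one_le_norm_leadingCoeff (p := s.comp (X + C w))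
    (by rw [(hs.comp_X_add_C w).leadingCoeff, norm_one])
  rw [coeff_zero_eq_eval_zero, eval_comp] at a1
  simp only [eval_add, eval_X, eval_C, zero_add, Nat.choose_zero_right, Nat.cast_one, one_mul] at a1
  refine (a1.trans (le_mul_of_one_le_right (mahlerMeasure_nonneg _) a2)).trans ?_
  rw [← mahlerMeasure_mul, ← mul_comp, mahlerMeasure, if_pos (hp.comp_X_add_C w).ne_zero,
    ← avgK hw _ (by linarith), exp_le_exp]
  refine circleAverage_mono (pint _) (cint (Continuous.log (by fun_prop) fun z => by positivity))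
    fun z _ => ?_
  rcases (norm_nonneg (eval z ((q * s).comp (X + C w)))).eq_or_lt with e2 | e2
  · rw [← e2, log_zero]
    exact log_nonneg (one_le_mul_of_one_le_of_one_le b1 (one_le_pow₀ (by simp)))
  refine log_le_log e2 ?_
  rw [eval_comp, eval_eq_sum_range, add_comm 1, add_pow, Finset.mul_sum]
  refine (norm_sum_le _ _).trans (Finset.sum_le_sum fun j hj => ?_)
  have := mul_le_mul_of_nonneg_right (le_bomb _ (Finset.mem_range.1 hj))
    (pow_nonneg (norm_nonneg (z + w)) j)
  simp only [eval_add, eval_X, eval_C, norm_mul, norm_pow, one_pow]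
  linarith

theorem factor {P : ℂ[X]} (hP : P.Monic) : ∃ Q : ℂ[X], Q.Monic ∧ Q ∣ P ∧
    ‖Q.eval 0‖ = P.mahlerMeasure := by
  refine ⟨((P.roots.filter fun r => 1 ≤ ‖r‖).map fun r => X - C r).prod,
    monic_multiset_prod_of_monic _ _ fun r _ => monic_X_sub_C r,
    (Multiset.prod_X_sub_C_dvd_iff_le_roots hP.ne_zero _).2 (Multiset.filter_le _ _), ?_⟩
  rw [mahlerMeasure_eq_leadingCoeff_mul_prod_roots, hP.leadingCoeff, norm_one, one_mul]
  induction P.roots using Multiset.induction_on with
  | empty => simp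
  | cons r s ih =>
    by_cases c : 1 ≤ ‖r‖
    · rw [Multiset.filter_cons_of_pos (p := fun r : ℂ => 1 ≤ ‖r‖) _ c, Multiset.map_cons, Multiset.prod_cons, eval_mul, norm_mul,
        ih, Multiset.map_cons, Multiset.prod_cons, max_eq_right c]
      simp
    · rw [Multiset.filter_cons_of_neg (p := fun r : ℂ => 1 ≤ ‖r‖) _ c, ih, Multiset.map_cons, Multiset.prod_cons,
        max_eq_left (not_le.1 c).le, one_mul]

theorem lower (n : ℕ) : ∃ p q : ℂ[X], p.Monic ∧ p.natDegree = n ∧ q.Monic ∧ q ∣ p ∧ bomb p = 1 ∧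
    ((n : ℝ) + 1)⁻¹ * K ^ n ≤ ‖q.eval 1‖ := by
  obtain ⟨ξ, x1, x2⟩ := phases (fun j z => n.choose (j + 1) * (z + 1) ^ (j + 1)) (by fun_prop)
    (fun z => ((n : ℝ) + 1)⁻¹ * (1 + ‖z + 1‖) ^ n) (by fun_prop) (fun z => by positivity) n
    (fun _ => 1) continuous_const (fun _ => le_rfl) fun z => by
      obtain ⟨j, j1, j2⟩ := Finset.exists_le_of_sum_le (s := Finset.range (n + 1)) (by simp)
        (f := fun _ => ((n : ℝ) + 1)⁻¹ * (1 + ‖z + 1‖) ^ n)
        (g := fun j => ‖z + 1‖ ^ j * 1 ^ (n - j) * n.choose j) (by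
          rw [← add_pow, add_comm 1]; simp; field_simp; rfl)
      rcases j with _ | j
      · exact .inl (by simpa using j2)
      · exact .inr ⟨j, by simpa using j1, by simpa [mul_comm] using j2⟩
  obtain ⟨w, w1, w2⟩ := last (fun z => ∑ j ∈ Finset.range n, ξ j * (n.choose (j + 1) * (z + 1) ^ (j + 1)))
    (by fun_prop)
  let η : ℕ → ℂ := fun i => Nat.casesOn i w ξ
  have e1 : ∀ i, ‖η i‖ = 1 := fun i => by cases i <;> simp [η, w1, x1]
  have e0 : η n ≠ 0 := fun c => by simpa [c] using e1 n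
  let p : ℂ[X] := ∑ i ∈ Finset.range (n + 1), monomial i ((η n)⁻¹ * η i * n.choose i)
  have pc : ∀ i, p.coeff i = (η n)⁻¹ * η i * n.choose i := fun i => by
    simp only [p, finsetSum_coeff, coeff_monomial, Finset.sum_ite_eq', Finset.mem_range]
    split_ifs with c
    · rfl
    · simp [Nat.choose_eq_zero_of_lt (show n < i by omega)]
  have pn : p.coeff n = 1 := by simp [pc, e0]
  have pl : p.natDegree ≤ n := natDegree_le_iff_coeff_eq_zero.2 fun i hi => by
    simp [pc, Nat.choose_eq_zero_of_lt hi]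
  have pm : p.Monic := monic_of_natDegree_le_of_coeff_eq_one n pl pn
  have pd : p.natDegree = n := le_antisymm pl (le_natDegree_of_ne_zero (by simp [pn]))
  obtain ⟨Q, q1, ⟨R, q2⟩, q3⟩ := factor (pm.comp_X_add_C 1)
  refine ⟨p, Q.comp (X - C 1), pm, pd, q1.comp_X_sub_C 1, ⟨R.comp (X - C 1), ?_⟩, ?_, ?_⟩
  · rw [← mul_comp, ← q2, comp_assoc]; simp
  · rw [bomb, ← ciSup_const (ι := Fin (p.natDegree + 1)) (a := (1 : ℝ))]
    congr 1
    ext j
    have : (p.natDegree.choose j : ℝ) ≠ 0 := by exact_mod_cast (Nat.choose_pos (by omega)).ne'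
    rw [pc, div_eq_one_iff_eq this]
    simp [e1, pd]
  · rw [eval_comp, show eval 1 (X - C 1 : ℂ[X]) = 0 by simp, q3, mahlerMeasure,
      if_pos (pm.comp_X_add_C 1).ne_zero, ← avgK (w := 1) (by simp) _ (by positivity), exp_le_exp]
    refine (x2.trans w2).trans_eq ?_
    rw [logMahlerMeasure_def]
    congr 1
    ext z
    have : eval z (p.comp (X + C 1)) = (η n)⁻¹ * (w + ∑ j ∈ Finset.range n,
        ξ j * (n.choose (j + 1) * (z + 1) ^ (j + 1))) := by
      simp only [p, eval_comp, eval_finsetSum, eval_monomial]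
      rw [Finset.sum_range_succ', mul_add, Finset.mul_sum, add_comm]
      simp [η, mul_assoc]
    rw [this, norm_mul, norm_inv, e1, inv_one, one_mul]

theorem bounds (n : ℕ) : ((n : ℝ) + 1)⁻¹ * K ^ n ≤ S n ∧ S n ≤ K ^ n := by
  have up : ∀ r ∈ {r | ∃ p q : ℂ[X], p.Monic ∧ p.natDegree = n ∧ q.Monic ∧ q ∣ p ∧
      r = supN q / bomb p}, r ≤ K ^ n := by
    rintro _ ⟨p, q, h1, rfl, h2, h3, rfl⟩
    obtain ⟨u1, u2⟩ := upper h1 h2 h3
    rw [div_le_iff₀' (by linarith)]
    exact csSup_le (Set.Nonempty.image _ ⟨0, by simp⟩) (by rintro _ ⟨z, hz, rfl⟩; exact u2 z hz)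
  obtain ⟨p, q, h1, h2, h3, h4, h5, h6⟩ := lower n
  refine ⟨le_trans ?_ (le_csSup ⟨_, up⟩ ⟨p, q, h1, h2, h3, h4, rfl⟩),
    csSup_le ⟨_, p, q, h1, h2, h3, h4, rfl⟩ up⟩
  rw [h5, div_one]
  exact h6.trans (le_csSup ⟨_, by rintro _ ⟨z, hz, rfl⟩; exact (upper h1 h3 h4).2 z hz⟩
    ⟨1, by simp, rfl⟩)

theorem result : Tendsto (fun n : ℕ => S n ^ (1 / (n : ℝ))) atTop (𝓝 K) := by
  have k0 : 0 < K := exp_pos _
  have t := ((tendsto_rpow_div_mul_add 1 1 (-1) zero_ne_one).comp (tendsto_atTop_add_const_right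
    atTop (1 : ℝ) tendsto_natCast_atTop_atTop)).inv₀ one_ne_zero |>.mul_const K
  rw [inv_one, one_mul] at t
  have e : ∀ n : ℕ, n ≠ 0 → (K ^ n) ^ (1 / (n : ℝ)) = K := fun n hn => by
    rw [one_div, pow_rpow_inv_natCast k0.le hn]
  refine tendsto_of_tendsto_of_tendsto_of_le_of_le' t tendsto_const_nhds ?_ ?_ <;>
    filter_upwards [eventually_ne_atTop 0] with n hn
  · refine le_trans (le_of_eq ?_) (rpow_le_rpow (by positivity) (bounds n).1 (by positivity))
    rw [mul_rpow (by positivity) (by positivity), e n hn, inv_rpow (by positivity)]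
    simp
  · exact (rpow_le_rpow (le_trans (by positivity) (bounds n).1) (bounds n).2
      (by positivity)).trans_eq (e n hn)

end Pool.Agent.Results.MP_6d4084_an.Sharp
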